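import Mathlib

/-!
# A monomial ideal whose closures have increasing depth: definitions and statements of the parts

`19` variables: `y_0, …, y_11` (indices `0..11`), `z_0, …, z_5` (indices `12..17`), `x` (index `18`).
The monomial ideal `I` is given by the exponents `α ∈ SS`:
`∑_{k ≠ i} y_k + 20160 x ≥ 181440` (12 rows) and `∑_{k ≠ j} z_k + 36 x ≥ 324` (6 rows).
The integral closure of `I ^ 3` is the monomial ideal of `TA 3 ∩ TB 3` and has depth at least `2`,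
while the integral closure of `I ^ 2` has depth `1`.
-/

open MvPolynomial
open scoped Pointwise

namespace Pool.Agent.Y236.DI

/-- exponents -/
abbrev Ex := Fin 19 →₀ ℕ

/-- index of `y_i` -/
def yi (i : Fin 12) : Fin 19 := ⟨i, by omega⟩

/-- index of `z_j` -/
def zj (j : Fin 6) : Fin 19 := ⟨12 + j, by omega⟩

/-- index of `x` -/
def xx : Fin 19 := 18

/-- sum of the `y` exponents -/
def Ys (α : Ex) : ℕ := ∑ i, α (yi i)

/-- sum of the `z` exponents -/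
def Zs (α : Ex) : ℕ := ∑ j, α (zj j)

/-- the rows of the first block at level `n` -/
def RowA (n : ℕ) (α : Ex) : Prop := ∀ i, 181440 * n + α (yi i) ≤ Ys α + 20160 * α xx

/-- the rows of the second block at level `n` -/
def RowB (n : ℕ) (α : Ex) : Prop := ∀ j, 324 * n + α (zj j) ≤ Zs α + 36 * α xx

/-- the exponents of the monomial ideal -/
def SS : Set Ex := {α | RowA 1 α ∧ RowB 1 α}

/-- first block with its two extra facets -/
def TA (n : ℕ) : Set Ex :=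
  {α | RowA n α ∧ 2177285 * n ≤ 11 * Ys α + 241923 * α xx ∧
    8709129 * n ≤ 44 * Ys α + 967681 * α xx}

/-- second block with its extra facet -/
def TB (n : ℕ) : Set Ex := {α | RowB n α ∧ 7780 * n ≤ 20 * Zs α + 865 * α xx}

/-- the monomial ideal of a set of exponents -/
noncomputable def Mon {r : ℕ} (T : Set (Fin r →₀ ℕ)) : Ideal (MvPolynomial (Fin r) ℚ) :=
  Ideal.span ((fun s : Fin r →₀ ℕ => MvPolynomial.monomial s (1 : ℚ)) '' T)

/-- integral elements over the `n`-th power of the monomial ideal of `S` lie above every valid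
linear inequality -/
def S_VAL : Prop :=
  ∀ (r : ℕ) (S : Set (Fin r →₀ ℕ)) (l : Fin r → ℕ) (t n k : ℕ),
    (∀ s ∈ S, t ≤ ∑ i, l i * s i) → 1 ≤ k →
    ∀ (f : MvPolynomial (Fin r) ℚ) (a : ℕ → MvPolynomial (Fin r) ℚ),
      (∀ i : ℕ, a i ∈ ((Mon S) ^ n) ^ i) →
      f ^ k + ∑ i ∈ Finset.range k, a (k - i) * f ^ i = 0 →
      ∀ α ∈ f.support, n * t ≤ ∑ i, l i * α i

/-- from the real convex hull to a multiple -/
def S_RAT : Prop :=
  ∀ (r : ℕ) (S : Set (Fin r →₀ ℕ)) (α : Fin r →₀ ℕ) (n : ℕ), 1 ≤ n →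
    (fun i => (α i : ℝ)) ∈
      (n : ℝ) • convexHull ℝ ((fun (s : Fin r →₀ ℕ) (i : Fin r) => (s i : ℝ)) '' S) →
    ∃ k : ℕ, 1 ≤ k ∧ MvPolynomial.monomial (k • α) (1 : ℚ) ∈ (Mon S) ^ (n * k)

/-- linear programming for one block -/
def S_LP : Prop :=
  ∀ (m : ℕ), 3 ≤ m → ∀ c : Fin m → ℚ, (∀ i, 0 ≤ c i) →
    (∃ i₀ : Fin m, ∀ (y : Fin m → ℚ) (a ρ : ℚ), (∀ i, 0 ≤ y i) → 0 ≤ a → 0 ≤ ρ →
      (∀ i, a + y i ≤ ∑ j, y j) → m * a + ρ ≤ (m - 1) * ∑ j, y j →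
      (a + ρ) / (m - 1) * ∑ j, c j - ρ * c i₀ ≤ ∑ j, c j * y j) ∨
    (∃ Q : Finset (Fin m), 2 ≤ Q.card ∧ Q.card ≤ m - 1 ∧
      ∀ (y : Fin m → ℚ) (a : ℚ), (∀ i, 0 ≤ y i) → 0 ≤ a → (∀ i, a + y i ≤ ∑ j, y j) →
      a / (Q.card - 1) * ∑ j ∈ Q, c j ≤ ∑ j, c j * y j)

/-- the main inequality: every valid linear functional is at least `3` on `TA 3 ∩ TB 3` -/
def S_MAIN : Prop :=
  ∀ c : Fin 19 → ℚ, (∀ i, 0 ≤ c i) → (∀ s ∈ SS, 1 ≤ ∑ i, c i * (s i : ℚ)) →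
    ∀ α ∈ TA 3 ∩ TB 3, 3 ≤ ∑ i, c i * (α i : ℚ)

/-- depth at least two -/
def S_DEP2 : Prop :=
  ∃ rs : List (MvPolynomial (Fin 19) ℚ), rs.length = 2 ∧
    (∀ f ∈ rs, f ∈ Ideal.span (Set.range (X : Fin 19 → MvPolynomial (Fin 19) ℚ))) ∧
    RingTheory.Sequence.IsRegular (MvPolynomial (Fin 19) ℚ ⧸ Mon (TA 3 ∩ TB 3)) rs

/-- depth at most one, general criterion -/
def S_DEP1 : Prop :=
  ∀ (r : ℕ) (J : Ideal (MvPolynomial (Fin r) ℚ)) (A : Finset (Fin r)) (α : Fin r →₀ ℕ)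
    (N₀ : ℕ) (T₁ T₂ : Set (Fin r →₀ ℕ)) (a₀ b₀ : Fin r),
    (∀ a ∈ A, ∀ b ∉ A, MvPolynomial.monomial
      (α + Finsupp.single a N₀ + Finsupp.single b N₀) (1 : ℚ) ∈ J) →
    IsUpperSet T₁ → IsUpperSet T₂ → J ≤ Mon T₁ → J ≤ Mon T₂ →
    (∀ N, α + Finsupp.single a₀ N ∉ T₁) → (∀ N, α + Finsupp.single b₀ N ∉ T₂) →
    a₀ ∈ A → b₀ ∉ A →
    ∀ f₁ f₂ : MvPolynomial (Fin r) ℚ,
      f₁ ∈ Ideal.span (Set.range (X : Fin r → MvPolynomial (Fin r) ℚ)) →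
      f₂ ∈ Ideal.span (Set.range (X : Fin r → MvPolynomial (Fin r) ℚ)) →
      ¬ RingTheory.Sequence.IsRegular (MvPolynomial (Fin r) ℚ ⧸ J) [f₁, f₂]

/-- the exponent which shows that the depth is `1` at level `2` -/
noncomputable def al0 : Ex := Finsupp.equivFunOnFinite.symm fun k =>
  if k = 0 then 27490 else if (k : ℕ) < 12 then 27491 else if (k : ℕ) < 18 then 108 else 3

/-- the needed members of the square -/
def S_SPEC : Prop :=
  ∃ N₀ : ℕ, (∀ i j, MvPolynomial.monomial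
      (al0 + Finsupp.single (yi i) N₀ + Finsupp.single (zj j) N₀) (1 : ℚ) ∈ (Mon SS) ^ 2) ∧
    ∀ j, MvPolynomial.monomial
      (al0 + Finsupp.single xx N₀ + Finsupp.single (zj j) N₀) (1 : ℚ) ∈ (Mon SS) ^ 2

end Pool.Agent.Y236.DI
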